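import Pool.Agent.W393.VR.Base

/-!
# VR-A: a criterion for (VRC)
-/

set_option autoImplicit false

namespace Pool.Agent.W753.VR

open Pool.Agent.W393.VR

variable {G : Type*} [Group G]

/-- additive functions as homomorphisms -/
def hm {N : Subgroup G} {f : G → ℤ} (h : AddOn N f) : N →* Multiplicative ℤ :=
  MonoidHom.mk' (fun x => Multiplicative.ofAdd (f x)) (fun x y => by
    rw [← ofAdd_add, ← h x x.2 y y.2]
    rfl)

lemma add_zpow {N : Subgroup G} {f : G → ℤ} (h : AddOn N f) {x : G} (hx : x ∈ N) (k : ℤ) :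
    f (x ^ k) = k * f x := by
  have h1 := map_zpow (hm h) ⟨x, hx⟩ k
  have h2 := congrArg Multiplicative.toAdd h1
  rw [toAdd_zpow] at h2
  simpa [hm] using h2

lemma add_one {N : Subgroup G} {f : G → ℤ} (h : AddOn N f) : f 1 = 0 := by
  have h1 := h 1 N.one_mem 1 N.one_mem
  rw [one_mul] at h1
  linarith

lemma add_inv {N : Subgroup G} {f : G → ℤ} (h : AddOn N f) {x : G} (hx : x ∈ N) :
    f x⁻¹ = -f x := by
  have h1 := h x hx x⁻¹ (N.inv_mem hx)
  rw [mul_inv_cancel, add_one h] at h1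
  linarith

/-- a retraction from a homomorphism that does not vanish at `g` -/
lemma vr_of_hom (K0 : Subgroup G) (hK : K0.FiniteIndex) (g : G) (hg : g ∈ K0) (φ : G → ℤ)
    (hφ : AddOn K0 φ) (hne : φ g ≠ 0) : VRetract (Subgroup.zpowers g) := by
  set c : ℤ := φ g with hc
  have hc0 : c.natAbs ≠ 0 := Int.natAbs_ne_zero.2 hne
  let K : Subgroup G :=
    { carrier := {x | x ∈ K0 ∧ c ∣ φ x}
      mul_mem' := by
        rintro x y ⟨hx, hx'⟩ ⟨hy, hy'⟩
        exact ⟨K0.mul_mem hx hy, by rw [hφ x hx y hy]; exact dvd_add hx' hy'⟩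
      one_mem' := ⟨K0.one_mem, by rw [add_one hφ]; exact dvd_zero c⟩
      inv_mem' := by
        rintro x ⟨hx, hx'⟩
        exact ⟨K0.inv_mem hx, by rw [add_inv hφ hx]; exact (dvd_neg).2 hx'⟩ }
  have hKle : K ≤ K0 := fun x hx => hx.1
  have hgz : Subgroup.zpowers g ≤ K := by
    rw [Subgroup.zpowers_le]
    exact ⟨hg, dvd_refl c⟩
  refine ⟨K, ?_, hgz, ?_⟩
  · have : NeZero c.natAbs := ⟨hc0⟩
    let ψ : K0 →* Multiplicative (ZMod c.natAbs) :=
      (AddMonoidHom.toMultiplicative (Int.castAddHom (ZMod c.natAbs))).comp (hm hφ)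
    have h1 : K.subgroupOf K0 = ψ.ker := by
      ext x
      rw [Subgroup.mem_subgroupOf, MonoidHom.mem_ker]
      have h2 : ψ x = 1 ↔ ((φ x : ℤ) : ZMod c.natAbs) = 0 := by
        constructor
        · intro h
          exact h
        · intro h
          exact h
      rw [h2, ZMod.intCast_zmod_eq_zero_iff_dvd]
      constructor
      · intro h
        rw [Int.natAbs_dvd]
        exact h.2
      · intro h
        rw [Int.natAbs_dvd] at h
        exact ⟨x.2, h⟩
    have h3 : (K.subgroupOf K0).FiniteIndex := by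
      rw [h1]
      infer_instance
    constructor
    rw [← Subgroup.relIndex_mul_index hKle]
    exact mul_ne_zero h3.index_ne_zero hK.index_ne_zero
  · refine ⟨MonoidHom.mk' (fun x : K => g ^ (φ x / c)) ?_, ?_, ?_⟩
    · intro x y
      show g ^ (φ (x * y : G) / c) = g ^ (φ x / c) * g ^ (φ y / c)
      rw [hφ x x.2.1 y y.2.1, ← zpow_add, Int.add_ediv_of_dvd_left x.2.2]
    · intro x
      exact ⟨_, rfl⟩
    · rintro ⟨x, hx⟩ ⟨i, rfl⟩
      show g ^ (φ (g ^ i) / c) = g ^ i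
      rw [add_zpow hφ hg, Int.mul_ediv_cancel _ hne]

/-- the averaged homomorphism -/
lemma exists_avg (g : G) (N : Subgroup G) (hN : N.Normal) (f : G → ℤ) (hf : AddOn N f) (m : ℕ)
    (hm0 : 0 < m) (hgm : g ^ m ∈ N) (hne : f (g ^ m) ≠ 0) :
    ∃ F : G → ℤ, AddOn N F ∧ (∀ n ∈ N, F (g⁻¹ * n * g) = F n) ∧ F (g ^ m) ≠ 0 := by
  have hcj : ∀ n ∈ N, ∀ x : G, x⁻¹ * n * x ∈ N := by
    intro n hn x
    have := hN.conj_mem n hn x⁻¹
    simpa using this
  refine ⟨fun n => ∑ i ∈ Finset.range m, f ((g ^ i)⁻¹ * n * g ^ i), ?_, ?_, ?_⟩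
  · intro x hx y hy
    rw [← Finset.sum_add_distrib]
    refine Finset.sum_congr rfl fun i _ => ?_
    rw [← hf _ (hcj x hx _) _ (hcj y hy _)]
    congr 1
    group
  · intro n hn
    have h1 : ∀ i ∈ Finset.range m, f ((g ^ i)⁻¹ * (g⁻¹ * n * g) * g ^ i) =
        f ((g ^ (i + 1))⁻¹ * n * g ^ (i + 1)) := by
      intro i _
      congr 1
      rw [pow_succ]
      group
    have h2 := Finset.sum_range_succ (fun i => f ((g ^ i)⁻¹ * n * g ^ i)) m
    have h3 := Finset.sum_range_succ' (fun i => f ((g ^ i)⁻¹ * n * g ^ i)) m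
    have h4 : f ((g ^ m)⁻¹ * n * g ^ m) = f n := by
      rw [hf _ (N.mul_mem (N.inv_mem hgm) hn) _ hgm, hf _ (N.inv_mem hgm) _ hn, add_inv hf hgm]
      ring
    have h5 : f ((g ^ 0)⁻¹ * n * g ^ 0) = f n := by simp
    show ∑ i ∈ Finset.range m, f ((g ^ i)⁻¹ * (g⁻¹ * n * g) * g ^ i) =
      ∑ i ∈ Finset.range m, f ((g ^ i)⁻¹ * n * g ^ i)
    rw [Finset.sum_congr rfl h1]
    have h6 : ∑ i ∈ Finset.range m, f ((g ^ (i + 1))⁻¹ * n * g ^ (i + 1)) + f n =
        ∑ i ∈ Finset.range m, f ((g ^ i)⁻¹ * n * g ^ i) + f n := by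
      rw [← h4, ← h2, h3, h4, h5]
    linarith
  · have h1 : ∀ i ∈ Finset.range m, f ((g ^ i)⁻¹ * g ^ m * g ^ i) = f (g ^ m) := by
      intro i _
      congr 1
      rw [mul_assoc, ← pow_add, add_comm m i, pow_add, inv_mul_cancel_left]
    show ∑ i ∈ Finset.range m, f ((g ^ i)⁻¹ * g ^ m * g ^ i) ≠ 0
    rw [Finset.sum_congr rfl h1, Finset.sum_const, Finset.card_range, nsmul_eq_mul]
    exact mul_ne_zero (by exact_mod_cast hm0.ne') hne

/-- invariance under all powers -/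
lemma inv_zpow (g : G) (N : Subgroup G) (hN : N.Normal) (F : G → ℤ)
    (hF : ∀ n ∈ N, F (g⁻¹ * n * g) = F n) (i : ℤ) : ∀ n ∈ N, F ((g ^ i)⁻¹ * n * g ^ i) = F n := by
  have hpos : ∀ k : ℕ, ∀ n ∈ N, F ((g ^ k)⁻¹ * n * g ^ k) = F n := by
    intro k
    induction k with
    | zero => intro n _; simp
    | succ k ih =>
      intro n hn
      have h1 : (g ^ k)⁻¹ * n * g ^ k ∈ N := by
        have := hN.conj_mem n hn (g ^ k)⁻¹
        simpa using this
      rw [← ih n hn, ← hF _ h1]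
      congr 1
      rw [pow_succ]
      group
  rcases Int.eq_nat_or_neg i with ⟨k, rfl | rfl⟩
  · intro n hn
    simpa using hpos k n hn
  · intro n hn
    have h1 : g ^ k * n * (g ^ k)⁻¹ ∈ N := hN.conj_mem n hn (g ^ k)
    have h2 := hpos k _ h1
    rw [show (g ^ k)⁻¹ * (g ^ k * n * (g ^ k)⁻¹) * g ^ k = n by group] at h2
    rw [h2]
    congr 1
    simp

lemma vr_of_det (g : G) (h : Det g) : VRetract (Subgroup.zpowers g) := by
  obtain ⟨N0, hN0, f, hf, m0, hm0, hgm0, hne0⟩ := h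
  -- make the subgroup normal
  have hN : N0.normalCore.Normal := Subgroup.normalCore_normal N0
  have hNf : N0.normalCore.FiniteIndex := inferInstance
  set N := N0.normalCore with hNdef
  have hle : N ≤ N0 := N0.normalCore_le
  obtain ⟨k, hk0, -, hk⟩ := Subgroup.exists_pow_mem_of_index_ne_zero hNf.index_ne_zero (g ^ m0)
  rw [← pow_mul] at hk
  have hf' : AddOn N f := fun x hx y hy => hf x (hle hx) y (hle hy)
  have hne' : f (g ^ (m0 * k)) ≠ 0 := by
    have h1 := add_zpow hf hgm0 (k : ℤ)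
    rw [zpow_natCast, ← pow_mul] at h1
    rw [h1]
    exact mul_ne_zero (by exact_mod_cast hk0.ne') hne0
  set m := m0 * k with hm
  have hmpos : 0 < m := Nat.mul_pos hm0 hk0
  obtain ⟨F, hF, hinv, hFne⟩ := exists_avg g N hN f hf' m hmpos hk hne'
  have hinv' := inv_zpow g N hN F hinv
  have hcj : ∀ n ∈ N, ∀ x : G, x⁻¹ * n * x ∈ N := by
    intro n hn x
    have := hN.conj_mem n hn x⁻¹
    simpa using this
  -- powers of `g ^ i * n`
  have hpow : ∀ (i : ℤ) (n : G), n ∈ N → ∀ k : ℕ, ∃ n' ∈ N, (g ^ i * n) ^ k = g ^ (i * k) * n' ∧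
      F n' = k * F n := by
    intro i n hn k
    induction k with
    | zero => exact ⟨1, N.one_mem, by simp, by simp [add_one hF]⟩
    | succ k ih =>
      obtain ⟨n', hn', h1, h2⟩ := ih
      refine ⟨((g ^ i)⁻¹ * n' * g ^ i) * n, N.mul_mem (hcj _ hn' _) hn, ?_, ?_⟩
      · rw [pow_succ, h1]
        push_cast
        rw [mul_add, mul_one, zpow_add]
        group
      · rw [hF _ (hcj _ hn' _) _ hn, hinv' i n' hn', h2]
        push_cast
        ring
  have hgim : ∀ i : ℤ, g ^ (i * m) ∈ N ∧ F (g ^ (i * m)) = i * F (g ^ m) := by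
    intro i
    rw [mul_comm i, zpow_mul, zpow_natCast]
    exact ⟨N.zpow_mem hk i, add_zpow hF hk i⟩
  have hval : ∀ (i : ℤ) (n : G), n ∈ N → F ((g ^ i * n) ^ m) = i * F (g ^ m) + m * F n := by
    intro i n hn
    obtain ⟨n', hn', h1, h2⟩ := hpow i n hn m
    rw [h1, hF _ (hgim i).1 _ hn', (hgim i).2, h2]
  let K0 : Subgroup G := Subgroup.zpowers g ⊔ N
  have hmem : ∀ x ∈ K0, ∃ (i : ℤ) (n : G), n ∈ N ∧ x = g ^ i * n := by
    intro x hx
    have h1 : x ∈ (Subgroup.zpowers g ⊔ N : Subgroup G) := hx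
    rw [← SetLike.mem_coe, Subgroup.mul_normal] at h1
    obtain ⟨_, ⟨i, rfl⟩, n, hn, rfl⟩ := h1
    exact ⟨i, n, hn, rfl⟩
  have hK0 : K0.FiniteIndex := Subgroup.finiteIndex_of_le (le_sup_right : N ≤ K0)
  refine vr_of_hom K0 hK0 g (Subgroup.mem_sup_left (Subgroup.mem_zpowers g)) (fun x => F (x ^ m))
    ?_ hFne
  intro x hx y hy
  obtain ⟨i, n, hn, rfl⟩ := hmem x hx
  obtain ⟨j, n', hn', rfl⟩ := hmem y hy
  have h1 : g ^ i * n * (g ^ j * n') = g ^ (i + j) * (((g ^ j)⁻¹ * n * g ^ j) * n') := by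
    rw [zpow_add]
    group
  show F ((g ^ i * n * (g ^ j * n')) ^ m) = F ((g ^ i * n) ^ m) + F ((g ^ j * n') ^ m)
  rw [h1, hval _ _ (N.mul_mem (hcj _ hn _) hn'), hval i n hn, hval j n' hn',
    hF _ (hcj _ hn _) _ hn', hinv' j n hn]
  ring

lemma vr_of_finSep (g : G) (h : FinSep g) : VRetract (Subgroup.zpowers g) := by
  obtain ⟨N, hN, hNf, hsep⟩ := h
  have hcj : ∀ n ∈ N, ∀ x : G, x⁻¹ * n * x ∈ N := by
    intro n hn x
    have := hN.conj_mem n hn x⁻¹
    simpa using this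
  let K : Subgroup G := Subgroup.zpowers g ⊔ N
  have hmem : ∀ x : K, ∃ a ∈ Subgroup.zpowers g, a⁻¹ * x ∈ N := by
    rintro ⟨x, hx⟩
    have h1 : x ∈ (Subgroup.zpowers g ⊔ N : Subgroup G) := hx
    rw [← SetLike.mem_coe, Subgroup.mul_normal] at h1
    obtain ⟨a, ha, n, hn, rfl⟩ := h1
    exact ⟨a, ha, by simpa using hn⟩
  choose r hr hr' using hmem
  have huniq : ∀ (x : K) (a : G), a ∈ Subgroup.zpowers g → a⁻¹ * x ∈ N → r x = a := by
    intro x a ha hax
    have h1 : (r x)⁻¹ * a ∈ N := by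
      have := N.mul_mem (hr' x) (N.inv_mem hax)
      simpa [mul_assoc] using this
    have h2 := hsep _ h1 ((Subgroup.zpowers g).mul_mem ((Subgroup.zpowers g).inv_mem (hr x)) ha)
    exact inv_mul_eq_one.1 h2
  refine ⟨K, Subgroup.finiteIndex_of_le (le_sup_right : N ≤ K), le_sup_left,
    MonoidHom.mk' r ?_, hr, ?_⟩
  · intro x y
    apply huniq
    · exact (Subgroup.zpowers g).mul_mem (hr x) (hr y)
    · have h1 := N.mul_mem (hcj _ (hr' x) (r y)) (hr' y)
      have h2 : (r x * r y)⁻¹ * ((x * y : K) : G) =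
          (r y)⁻¹ * ((r x)⁻¹ * (x : G)) * r y * ((r y)⁻¹ * (y : G)) := by
        rw [Subgroup.coe_mul]
        group
      rw [h2]
      exact h1
  · intro x hx
    exact huniq x x hx (by rw [inv_mul_cancel]; exact N.one_mem)

theorem vrc_of (h1 : ∀ g : G, ¬ IsOfFinOrder g → Det g)
    (h2 : ∀ g : G, IsOfFinOrder g → FinSep g) : VRC G := by
  intro g
  by_cases hg : IsOfFinOrder g
  · exact vr_of_finSep g (h2 g hg)
  · exact vr_of_det g (h1 g hg)

end Pool.Agent.W753.VR
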